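import Pool.Agent.H682Z.Main

/-!
# The Moebius exponential sum is not `O(√R)`

For every `C` there is a fixed `β ≥ 0` such that `|F_R(β / R)| > C √R` for infinitely many `R`, where
`F_R(x) = ∑_{n = 1}^R μ(n) e^{2 π i n x}`.
-/

open Filter

namespace Pool.Agent.Results.MP_b6b996_nt.AOmega

/-- `F_R(x) = ∑_{n = 1}^R μ(n) e^{2 π i n x}`. -/
noncomputable def F (R : ℕ) (x : ℝ) : ℂ :=
  ∑ n ∈ Finset.Icc 1 R, ((ArithmeticFunction.moebius n : ℤ) : ℂ) *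
    Complex.exp (2 * (Real.pi : ℂ) * Complex.I * (n : ℂ) * (x : ℂ))

theorem result (C : ℝ) :
    ∃ β : ℝ, 0 ≤ β ∧ ∃ᶠ R : ℕ in atTop, C * Real.sqrt (R : ℝ) < ‖F R (β / (R : ℝ))‖ := by
  obtain ⟨β, h0, h⟩ := H682Z.main C
  refine ⟨β, h0, h.mono fun R hR => ?_⟩
  have e : F R (β / (R : ℝ)) = H682Z.SS (β / (R : ℝ)) R := by
    unfold F H682Z.SS
    rw [← Finset.insert_Icc_add_one_left_eq_Icc (Nat.zero_le R), Finset.sum_insert (by simp)]
    simp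
  rw [e]
  exact hR

end Pool.Agent.Results.MP_b6b996_nt.AOmega
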